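import Mathlib
import Pool.Agent.Helper4.QN.Defs
import Pool.Agent.Helper59.QH.Reduction

/-!
QN-13: reduction of the quantitative Helly theorem for the diameter from convex sets to polytopes,
`m ≥ 2d` members (MP_882a21_co). Adapted from `Pool.Agent.Helper59.QH.Reduction`.
-/

set_option autoImplicit false

namespace Pool.Agent.Helper30.QN

open scoped BigOperators RealInnerProductSpace Topology
open Pool.Agent.Helper4.QN

/-- QN-13 (from convex sets to polytopes, `m ≥ 2d` members). -/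
theorem reduction {d : ℕ} (hd : 0 < d) (m : ℕ) (hm : 2 * d ≤ m) (ρ : ℝ) (hρ : 0 < ρ)
    (hpoly : ∀ (n : ℕ) (a : Fin n → EuclideanSpace ℝ (Fin d)) (b : Fin n → ℝ) (D : ℝ),
      (∀ x y : EuclideanSpace ℝ (Fin d), (∀ i, ⟪a i, x⟫ ≤ b i) → (∀ i, ⟪a i, y⟫ ≤ b i) →
        ‖x - y‖ ≤ D) →
      (∃ x₀ : EuclideanSpace ℝ (Fin d), ∀ i, ⟪a i, x₀⟫ < b i) →
      ∃ s : Finset (Fin n), s.card ≤ m ∧
        ∀ x y : EuclideanSpace ℝ (Fin d), (∀ i ∈ s, ⟪a i, x⟫ ≤ b i) →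
          (∀ i ∈ s, ⟪a i, y⟫ ≤ b i) → ‖x - y‖ ≤ ρ * D)
    (F : Finset (Set (EuclideanSpace ℝ (Fin d)))) (hconv : ∀ K ∈ F, Convex ℝ K)
    (hF : ∀ G ⊆ F, G.card ≤ m → 1 ≤ Metric.ediam (⋂ K ∈ G, K)) :
    ENNReal.ofReal (1 / ρ) ≤ Metric.ediam (⋂ K ∈ F, K) := by
  classical
  rcases F.eq_empty_or_nonempty with rfl | hFne
  · -- the whole space
    have h1 : (0 : EuclideanSpace ℝ (Fin d)) ∈
        ⋂ K ∈ (∅ : Finset (Set (EuclideanSpace ℝ (Fin d)))), K := by simp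
    have h2 : EuclideanSpace.single (⟨0, hd⟩ : Fin d) (1 / ρ) ∈
        ⋂ K ∈ (∅ : Finset (Set (EuclideanSpace ℝ (Fin d)))), K := by simp
    refine le_trans ?_ (Metric.edist_le_ediam_of_mem h2 h1)
    rw [edist_dist, dist_zero_right, PiLp.norm_single, Real.norm_eq_abs,
      abs_of_pos (by positivity)]
  by_contra hcon
  push Not at hcon
  set r := Metric.ediam (⋂ K ∈ F, K) with hr
  have hrtop : r ≠ ⊤ := ne_top_of_lt hcon
  set D0 : ℝ := r.toReal with hD0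
  have hD0nn : 0 ≤ D0 := ENNReal.toReal_nonneg
  have hD0lt : D0 < 1 / ρ := ENNReal.toReal_lt_of_lt_ofReal hcon
  set η : ℝ := (1 / ρ - D0) / 4 with hη
  have hηpos : 0 < η := by rw [hη]; linarith
  set c : ℝ := ρ * (D0 + 2 * η) with hc
  have hc1 : c < 1 := by
    have h1 : ρ * (D0 + 2 * η) < ρ * (1 / ρ) := by
      apply mul_lt_mul_of_pos_left _ hρ
      rw [hη]
      linarith
    rw [mul_one_div_cancel hρ.ne'] at h1
    exact h1
  have hc0 : 0 ≤ c := by positivity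
  -- long segments
  have hseg : ∀ G ⊆ F, G.card ≤ m → ∃ p ∈ ⋂ K ∈ G, K, ∃ q ∈ ⋂ K ∈ G, K,
      c < dist p q := by
    intro G hG hGc
    by_contra hno
    push Not at hno
    have h1 : Metric.ediam (⋂ K ∈ G, K) ≤ ENNReal.ofReal c := by
      apply Metric.ediam_le
      intro x hx y hy
      rw [edist_dist]
      exact ENNReal.ofReal_le_ofReal (hno x hx y hy)
    have h2 : ENNReal.ofReal c < 1 := by
      rw [← ENNReal.ofReal_one]
      exact (ENNReal.ofReal_lt_ofReal_iff one_pos).2 hc1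
    exact absurd ((hF G hG hGc).trans h1) (not_le.2 h2)
  have hseg' : ∀ G : Finset (Set (EuclideanSpace ℝ (Fin d))),
      ∃ p q : EuclideanSpace ℝ (Fin d), (G ⊆ F ∧ G.card ≤ m) →
      (p ∈ ⋂ K ∈ G, K) ∧ (q ∈ ⋂ K ∈ G, K) ∧ c < dist p q := by
    intro G
    by_cases h : G ⊆ F ∧ G.card ≤ m
    · obtain ⟨p, hp, q, hq, hpq⟩ := hseg G h.1 h.2
      exact ⟨p, q, fun _ => ⟨hp, hq, hpq⟩⟩
    · exact ⟨0, 0, fun h' => absurd h' h⟩
  choose p q hpq using hseg'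
  set K' : Set (EuclideanSpace ℝ (Fin d)) → Set (EuclideanSpace ℝ (Fin d)) := fun K =>
    convexHull ℝ {z | ∃ G ∈ F.powerset.filter (fun G => G.card ≤ m),
      K ∈ G ∧ (z = p G ∨ z = q G)} with hK'
  have hfin : ∀ K, {z | ∃ G ∈ F.powerset.filter (fun G => G.card ≤ m),
      K ∈ G ∧ (z = p G ∨ z = q G)}.Finite := by
    intro K
    apply Set.Finite.subset ((F.powerset.filter (fun G => G.card ≤ m)).image p ∪
      (F.powerset.filter (fun G => G.card ≤ m)).image q).finite_toSet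
    rintro z ⟨G, hG, _, hz | hz⟩
    · rw [hz]
      exact Finset.mem_coe.2 (Finset.mem_union_left _ (Finset.mem_image_of_mem p hG))
    · rw [hz]
      exact Finset.mem_coe.2 (Finset.mem_union_right _ (Finset.mem_image_of_mem q hG))
  have hcomp : ∀ K, IsCompact (K' K) := fun K => (hfin K).isCompact_convexHull (𝕜 := ℝ)
  have hconv' : ∀ K, Convex ℝ (K' K) := fun K => convex_convexHull ℝ _
  have hmemG : ∀ G ⊆ F, G.card ≤ m → ∀ K ∈ G, p G ∈ K' K ∧ q G ∈ K' K := by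
    intro G hG hGc K hK
    have hG' : G ∈ F.powerset.filter (fun G => G.card ≤ m) :=
      Finset.mem_filter.2 ⟨Finset.mem_powerset.2 hG, hGc⟩
    exact ⟨subset_convexHull ℝ _ ⟨G, hG', hK, Or.inl rfl⟩,
      subset_convexHull ℝ _ ⟨G, hG', hK, Or.inr rfl⟩⟩
  have hK'sub : ∀ K ∈ F, K' K ⊆ K := by
    intro K hK
    apply convexHull_min _ (hconv K hK)
    rintro z ⟨G, hG, hKG, hz⟩
    rw [Finset.mem_filter, Finset.mem_powerset] at hG
    have h1 := hpq G hG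
    rcases hz with rfl | rfl
    · exact Set.mem_iInter₂.1 h1.1 K hKG
    · exact Set.mem_iInter₂.1 h1.2.1 K hKG
  have hM : (⋂ K ∈ F, K' K).Nonempty := by
    apply Convex.helly_theorem' (𝕜 := ℝ) (fun K _ => hconv' K)
    intro I hI hIc
    rw [finrank_euclideanSpace_fin] at hIc
    exact ⟨p I, Set.mem_iInter₂.2 (fun K hK => (hmemG I hI (by omega) K hK).1)⟩
  obtain ⟨n, a, b, κ, h1, h2⟩ := Pool.Agent.Helper59.QH.approx F hFne K' hcomp hconv' hM η hηpos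
  have hMF : (⋂ K ∈ F, K' K) ⊆ ⋂ K ∈ F, K := Set.iInter₂_mono (fun K hK => hK'sub K hK)
  have hMd : ∀ x ∈ ⋂ K ∈ F, K' K, ∀ y ∈ ⋂ K ∈ F, K' K, dist x y ≤ D0 := by
    intro x hx y hy
    have h3 : edist x y ≤ r := Metric.edist_le_ediam_of_mem (hMF hx) (hMF hy)
    rw [dist_edist, hD0]
    exact ENNReal.toReal_mono hrtop h3
  obtain ⟨s, hs, hs'⟩ := hpoly n a b (D0 + 2 * η) (by
    intro x y hx hy
    obtain ⟨x', hx', hdx⟩ := (Metric.infDist_lt_iff hM).1 (h2 x hx)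
    obtain ⟨y', hy', hdy⟩ := (Metric.infDist_lt_iff hM).1 (h2 y hy)
    rw [← dist_eq_norm]
    have h3 := hMd x' hx' y' hy'
    have h4 : dist x y ≤ dist x x' + dist x' y' + dist y' y := dist_triangle4 _ _ _ _
    rw [dist_comm y' y] at h4
    linarith) (by
    obtain ⟨x0, hx0⟩ := hM
    exact ⟨x0, fun i => (h1 i).2 x0 (Set.mem_iInter₂.1 hx0 _ (h1 i).1)⟩)
  set G : Finset (Set (EuclideanSpace ℝ (Fin d))) := s.image κ with hG
  have hGF : G ⊆ F := by
    intro K hK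
    obtain ⟨i, _, rfl⟩ := Finset.mem_image.1 hK
    exact (h1 i).1
  have hGc : G.card ≤ m := Finset.card_image_le.trans hs
  have h3 := hmemG G hGF hGc
  have h4 := hs' (p G) (q G)
    (fun i hi => ((h1 i).2 _ (h3 (κ i) (Finset.mem_image_of_mem κ hi)).1).le)
    (fun i hi => ((h1 i).2 _ (h3 (κ i) (Finset.mem_image_of_mem κ hi)).2).le)
  rw [← dist_eq_norm] at h4
  exact absurd (hpq G ⟨hGF, hGc⟩).2.2 (not_lt.2 h4)

end Pool.Agent.Helper30.QN
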